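import Mathlib
import Pool.Agent.Q97.RS.Cons
import Pool.Agent.H789R2.FR.Smooth
set_option autoImplicit false

/-!
# Stein's restriction conjecture for all bounded densities: large values have no additive structure

Let `n ≥ 2`, let `f` be a bounded density on the unit sphere of `ℝ^n` and `F` the Fourier transform
of `f dσ`. We prove, for ALL bounded densities:

* the endpoint two-point inequality
  `∫∫ |F(w+ξ-η)|² Φ(ξ) Φ(η) dξ dη ≤ C ‖f‖_∞² ‖Φ‖²_{2n/(n+1)}`, `w ∈ ℝ^n`, `Φ ≥ 0`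
  (`2n/(n+1)` is the dual of the endpoint `2n/(n-1)` of the conjecture);
* `|B| ∫_S |F|² ≤ C ‖f‖_∞² |S+B|^{1+1/n}` for all sets `S`, `B`; for a set `S` of small doubling this
  is the bound `∫_S |F|² ≤ C ‖f‖_∞² |S|^{1/n}` that an endpoint (weak type) estimate would give;
* if `|F| ≥ l` on `S`, then the additive energy of `S` is at most
  `C l^{-2} ‖f‖_∞² |S|^{2+1/n}`; so the superlevel sets of `F` are of the conjectured size as soon as
  their additive energy is comparable with the cube of their measure;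
* for every `q > 2n/(n-1)`, the full range of the conjecture, the restriction estimate
  `∫ |F| Φ ≤ C A^{1+1/(2n)} ‖f‖_∞ ‖Φ‖_{q'}` for all test functions `Φ` whose superlevel sets
  `{Φ > t}` have a sum set with a set of comparable measure that is at most `A` times larger.

The key is positivity: the autocorrelation weights `∫ Φ(ξ) Φ(ξ - z) dξ` are positive definite, so
against them `|F|²` is dominated by `‖f‖_∞²` times the square of the Fourier transform of the
surface measure itself, whatever the translation `w`.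
-/

namespace Pool.Agent.Results.MP_6cbfb8_an.AdditiveStructure

open MeasureTheory Set Metric Filter Topology
open scoped ENNReal NNReal RealInnerProductSpace Pointwise

/-- Euclidean space -/
abbrev E (n : ℕ) := EuclideanSpace ℝ (Fin n)

/-- surface measure on the unit sphere -/
noncomputable def sigma (n : ℕ) : Measure (sphere (0 : E n) 1) := (volume : Measure (E n)).toSphere

/-- the Fourier transform of the measure `f dσ` -/
noncomputable def ft {n : ℕ} (f : sphere (0 : E n) 1 → ℂ) (ξ : E n) : ℂ :=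
  ∫ x, Complex.exp (-(2 * Real.pi * ⟪(x : E n), ξ⟫ : ℝ) * Complex.I) * f x ∂(sigma n)

/-- the additive energy of a set: the measure of the set of the triples `(a, b, c)` of its elements
such that `a + b - c` is also an element -/
noncomputable def energy {n : ℕ} (S : Set (E n)) : ℝ≥0∞ :=
  ((volume : Measure (E n)).prod (volume.prod volume))
    {p : E n × E n × E n | p.1 ∈ S ∧ p.2.1 ∈ S ∧ p.2.2 ∈ S ∧ p.1 + p.2.1 - p.2.2 ∈ S}

/-- The superlevel sets `{Φ > t}` have additive structure: for each `t` there is a set `B`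
(for instance `{Φ > t}` itself, or its set of negatives) of at least comparable measure such that
the sum set `{Φ > t} + B` is of comparable measure. -/
def Structured {n : ℕ} (A : ℝ≥0) (Φ : E n → ℝ≥0) : Prop :=
  ∀ t : ℝ≥0, ∃ B : Set (E n), volume {x | t < Φ x} ≤ A * volume B ∧
    volume ({x | t < Φ x} + B) ≤ A * volume {x | t < Φ x}

/-- the two-point inequality for the Fourier transform `F` of `f dσ` -/
def TwoPointBound {n : ℕ} (C : ℝ≥0) (f : sphere (0 : E n) 1 → ℂ) : Prop :=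
  ∀ (w : E n) (Φ : E n → ℝ≥0), Measurable Φ →
    ∫⁻ ξ, ∫⁻ η, ‖ft f (w + ξ - η)‖ₑ ^ 2 * (Φ ξ * Φ η) ≤ C * eLpNorm f ∞ (sigma n) ^ 2 *
      (∫⁻ x, (Φ x : ℝ≥0∞) ^ (2 * (n : ℝ) / (n + 1))) ^ (((n : ℝ) + 1) / n)

/-- `|B| ∫_S |F|² ≤ C ‖f‖_∞² |S+B|^{1+1/n}` -/
def SumSetBound {n : ℕ} (C : ℝ≥0) (f : sphere (0 : E n) 1 → ℂ) : Prop :=
  ∀ S B : Set (E n), MeasurableSet S → volume B * ∫⁻ ξ in S, ‖ft f ξ‖ₑ ^ 2 ≤
    C * eLpNorm f ∞ (sigma n) ^ 2 * volume (S + B) ^ (1 + 1 / (n : ℝ))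

/-- `l²` times the additive energy of a set on which `|F| ≥ l` is at most
`C ‖f‖_∞² |S|^{2+1/n}` -/
def EnergyBound {n : ℕ} (C : ℝ≥0) (f : sphere (0 : E n) 1 → ℂ) : Prop :=
  ∀ (l : ℝ≥0∞) (S : Set (E n)), MeasurableSet S → (∀ ξ ∈ S, l ≤ ‖ft f ξ‖ₑ) →
    l ^ 2 * energy S ≤ C * eLpNorm f ∞ (sigma n) ^ 2 * volume S ^ (2 + 1 / (n : ℝ))

/-- the restriction estimate with exponent `q` for test functions with structured superlevel
sets -/
def StructuredBound {n : ℕ} (q : ℝ) (C : ℝ≥0) (f : sphere (0 : E n) 1 → ℂ) : Prop :=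
  ∀ (A : ℝ≥0) (Φ : E n → ℝ≥0), 1 ≤ A → Measurable Φ → Structured A Φ →
    ∫⁻ ξ, ‖ft f ξ‖ₑ * Φ ξ ≤ C * (A : ℝ≥0∞) ^ (1 + 1 / (2 * (n : ℝ))) *
      eLpNorm f ∞ (sigma n) * (∫⁻ ξ, (Φ ξ : ℝ≥0∞) ^ (q / (q - 1))) ^ (1 - 1 / q)

/-! ### Proofs -/

open Q97.RS (ch Fh TwoPoint kap)
open Pool.Agent.H789R2.FR (sg T sg_finite)

variable {n : ℕ}

theorem one_decay (hn : 2 ≤ n) : ∃ D : ℝ≥0, 0 < D ∧
    ∀ z : E n, ‖Fh (sg n) (fun _ => 1) z‖ₑ ^ 2 ≤ D * kap z := by
  obtain ⟨C, hC, hd⟩ := Pool.Agent.H789R2.FR.decay n hn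
  have hn' : (2 : ℝ) ≤ n := by exact_mod_cast hn
  refine ⟨(C ^ 2).toNNReal, by simpa using by positivity, fun z => ?_⟩
  have hfr : (Module.finrank ℝ (E n) : ℝ) = n := by simp
  unfold kap
  rw [hfr]
  rcases eq_or_ne z 0 with rfl | hz
  · rw [enorm_zero, ENNReal.zero_rpow_of_neg (by linarith), ENNReal.mul_top]
    · exact le_top
    · simpa using by positivity
  · have h1 : Fh (sg n) (fun _ => 1) z = T (fun _ => 1) ((2 * Real.pi) • z) := by
      unfold Fh T ch
      refine integral_congr_ae (Eventually.of_forall fun x => ?_)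
      simp only
      rw [real_inner_smul_left, real_inner_comm]
    have h2 := hd ((2 * Real.pi) • z) (by
      rw [Ne, smul_eq_zero, not_or]
      exact ⟨by positivity, hz⟩)
    rw [← h1] at h2
    have hz0 : 0 < ‖z‖ := norm_pos_iff.2 hz
    have h3 : ‖(2 * Real.pi) • z‖ ^ (-((n : ℝ) - 1) / 2) ≤ ‖z‖ ^ (-((n : ℝ) - 1) / 2) := by
      refine Real.rpow_le_rpow_of_nonpos hz0 ?_ (by linarith)
      rw [norm_smul, Real.norm_eq_abs, abs_of_pos (by positivity)]
      have : 1 ≤ 2 * Real.pi := by linarith [Real.pi_gt_three]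
      nlinarith
    have h4 : ‖Fh (sg n) (fun _ => 1) z‖ ≤ C * ‖z‖ ^ (-((n : ℝ) - 1) / 2) :=
      h2.trans (mul_le_mul_of_nonneg_left h3 hC.le)
    have h5 : ‖Fh (sg n) (fun _ => 1) z‖ ^ 2 ≤ C ^ 2 * ‖z‖ ^ (-((n : ℝ) - 1)) := by
      calc ‖Fh (sg n) (fun _ => 1) z‖ ^ 2 ≤ (C * ‖z‖ ^ (-((n : ℝ) - 1) / 2)) ^ 2 :=
            pow_le_pow_left₀ (norm_nonneg _) h4 2
        _ = C ^ 2 * ‖z‖ ^ (-((n : ℝ) - 1)) := by
            rw [mul_pow, ← Real.rpow_natCast (‖z‖ ^ (-((n : ℝ) - 1) / 2)) 2, ← Real.rpow_mul hz0.le]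
            congr 2
            push_cast
            ring
    rw [← ofReal_norm, ← ofReal_norm, ENNReal.ofReal_rpow_of_pos hz0,
      ← ENNReal.ofReal_pow (norm_nonneg _)]
    refine (ENNReal.ofReal_le_ofReal h5).trans (le_of_eq ?_)
    rw [ENNReal.ofReal_mul (by positivity)]
    rfl

instance (n : ℕ) : IsFiniteMeasure (sigma n) := by unfold sigma; infer_instance

/-- a bounded measurable extension of a bounded density to the whole space -/
theorem exists_ext (g : sphere (0 : E n) 1 → ℂ) (hg : MemLp g ∞ (sigma n)) :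
    ∃ G : E n → ℂ, Measurable G ∧ (∀ x, ‖G x‖ ≤ (eLpNorm g ∞ (sigma n)).toReal) ∧
      ft g = Fh (sg n) G := by
  obtain ⟨g0, hg0, hgg⟩ := hg.1
  set M : ℝ := (eLpNorm g ∞ (sigma n)).toReal with hMdef
  have hM : ∀ᵐ x ∂(sigma n), ‖g x‖ ≤ M := by
    have h1 := hg.2.ne
    rw [eLpNorm_exponent_top] at h1
    filter_upwards [enorm_ae_le_eLpNormEssSup g (sigma n)] with x hx
    rw [hMdef, ← toReal_enorm, eLpNorm_exponent_top]
    exact ENNReal.toReal_mono h1 hx
  have hM0 : 0 ≤ M := ENNReal.toReal_nonneg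
  set g1 : sphere (0 : E n) 1 → ℂ := {x | ‖g0 x‖ ≤ M}.indicator g0 with hg1
  have hg1m : Measurable g1 :=
    hg0.measurable.indicator (measurableSet_le hg0.measurable.norm measurable_const)
  have hg1b : ∀ x, ‖g1 x‖ ≤ M := by
    intro x
    by_cases h : ‖g0 x‖ ≤ M
    · rw [hg1, indicator_of_mem (show x ∈ {x | ‖g0 x‖ ≤ M} from h)]
      exact h
    · rw [hg1, indicator_of_notMem (show x ∉ {x | ‖g0 x‖ ≤ M} from h)]
      simpa using hM0
  have hGm : Measurable (Function.extend Subtype.val g1 (0 : E n → ℂ)) :=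
    (MeasurableEmbedding.subtype_coe isClosed_sphere.measurableSet).measurable_extend
      hg1m measurable_zero
  refine ⟨Function.extend Subtype.val g1 0, hGm, ?_, ?_⟩
  · intro x
    by_cases h : ∃ y : sphere (0 : E n) 1, (y : E n) = x
    · obtain ⟨y, rfl⟩ := h
      rw [Subtype.val_injective.extend_apply]
      exact hg1b y
    · rw [Function.extend_apply' _ _ _ h]
      simpa using hM0
  · funext ξ
    have hint : AEStronglyMeasurable (fun x : E n =>
        ch x ξ * Function.extend Subtype.val g1 (0 : E n → ℂ) x)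
        (((volume : Measure (E n)).toSphere).map Subtype.val) :=
      ((Q97.RS.ch_cont' ξ).measurable.mul hGm).aestronglyMeasurable
    unfold ft Fh
    rw [sg, integral_map measurable_subtype_coe.aemeasurable hint]
    refine integral_congr_ae ?_
    filter_upwards [hgg, hM] with x hx hMx
    rw [Subtype.val_injective.extend_apply, hg1,
      indicator_of_mem (show x ∈ {x | ‖g0 x‖ ≤ M} from by
        change ‖g0 x‖ ≤ M
        rw [← hx]; exact hMx), hx]
    rfl

theorem ft_basic (hn : 2 ≤ n) : ∃ C : ℝ≥0, 0 < C ∧ ∀ f : sphere (0 : E n) 1 → ℂ,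
    MemLp f ∞ (sigma n) → Measurable (ft f) ∧
      TwoPoint (ft f) (C * eLpNorm f ∞ (sigma n) ^ 2) ∧
      ∀ ξ, ‖ft f ξ‖ₑ ≤ C * eLpNorm f ∞ (sigma n) := by
  have hfr : Module.finrank ℝ (E n) = n := by simp
  have := sg_finite n
  obtain ⟨C, hC, h2⟩ := Q97.RS.two_point (V := E n) (by rw [hfr]; exact hn)
  obtain ⟨D, hD, hdec⟩ := one_decay hn
  refine ⟨C * D + ((sg n).real univ).toNNReal, by positivity, fun f hf => ?_⟩
  obtain ⟨G, hGm, hGb, hfG⟩ := exists_ext f hf
  have hfin : eLpNorm f ∞ (sigma n) ≠ ∞ := hf.2.ne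
  set M : ℝ≥0∞ := eLpNorm f ∞ (sigma n) with hM
  refine ⟨?_, ?_, fun ξ => ?_⟩
  · rw [hfG]
    exact (Q97.RS.Fh_meas (sg n) hGm).measurable
  · intro w Φ hΦ
    have h3 := h2 (sg n) D hdec hGm hGb w Φ hΦ
    rw [hfG]
    refine h3.trans ?_
    have h4 : ENNReal.ofReal (M.toReal ^ 2) = M ^ 2 := by
      rw [ENNReal.ofReal_pow ENNReal.toReal_nonneg, ENNReal.ofReal_toReal hfin]
    rw [h4, ← mul_assoc]
    refine mul_le_mul_left ?_ _
    rw [mul_comm]
    refine mul_le_mul_left ?_ _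
    rw [ENNReal.coe_add, ENNReal.coe_mul]
    exact le_self_add
  · rw [hfG]
    have h3 := Q97.RS.Fh_norm_le (sg n) hGb ξ
    rw [← ofReal_norm]
    refine (ENNReal.ofReal_le_ofReal h3).trans ?_
    rw [ENNReal.ofReal_mul ENNReal.toReal_nonneg, ENNReal.ofReal_toReal hfin, mul_comm]
    refine mul_le_mul_left ?_ _
    rw [ENNReal.coe_add]
    exact le_add_self

theorem result (n : ℕ) (hn : 2 ≤ n) :
    (∃ C : ℝ≥0, ∀ f : sphere (0 : E n) 1 → ℂ, MemLp f ∞ (sigma n) →
      TwoPointBound C f ∧ SumSetBound C f ∧ EnergyBound C f) ∧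
    (∀ q : ℝ, 2 * (n : ℝ) / (n - 1) < q → ∃ C : ℝ≥0, ∀ f : sphere (0 : E n) 1 → ℂ,
      MemLp f ∞ (sigma n) → StructuredBound q C f) := by
  have hfr : Module.finrank ℝ (E n) = n := by simp
  have hd : 2 ≤ Module.finrank ℝ (E n) := by rw [hfr]; exact hn
  have hn' : (2 : ℝ) ≤ n := by exact_mod_cast hn
  obtain ⟨C, hC, hbasic⟩ := ft_basic hn
  have hexp : 1 + 1 / (n : ℝ) = ((n : ℝ) + 1) / n := by field_simp
  constructor
  · refine ⟨C, fun f hf => ?_⟩
    obtain ⟨hm, hT, hb⟩ := hbasic f hf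
    refine ⟨fun w Φ hΦ => ?_, fun S B hS => ?_, fun l S hS hl => ?_⟩
    · have h1 := hT w Φ hΦ
      rw [hfr] at h1
      refine le_trans (le_of_eq ?_) h1
      have hΦe : Measurable fun x => (Φ x : ℝ≥0∞) := hΦ.coe_nnreal_ennreal
      have hF2 : Measurable fun v => ‖ft f v‖ₑ ^ 2 := hm.enorm.pow_const 2
      have mq : Measurable fun q : E n × E n =>
          ‖ft f (w + q.1 - q.2)‖ₑ ^ 2 * ((Φ q.1 : ℝ≥0∞) * Φ q.2) :=
        (hF2.comp ((measurable_const.add measurable_fst).sub measurable_snd)).mul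
          ((hΦe.comp measurable_fst).mul (hΦe.comp measurable_snd))
      rw [lintegral_prod _ mq.aemeasurable]
    · have h1 := hT.sumset hm hd hS B
      rw [hfr] at h1
      rw [hexp]
      exact h1
    · have hms : MeasurableSet {p : E n × E n × E n |
          p.1 ∈ S ∧ p.2.1 ∈ S ∧ p.2.2 ∈ S ∧ p.1 + p.2.1 - p.2.2 ∈ S} := by
        refine (measurable_fst hS).inter ((measurable_snd.fst hS).inter
          ((measurable_snd.snd hS).inter ?_))
        exact ((measurable_fst.add measurable_snd.fst).sub measurable_snd.snd) hS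
      have h1 : energy S ≤ ∫⁻ w in S, Q97.RS.reps S w := by
        unfold energy
        rw [Measure.prod_apply hms, ← lintegral_indicator hS]
        refine lintegral_mono fun w => ?_
        by_cases hw : w ∈ S
        · rw [indicator_of_mem hw]
          refine measure_mono fun q hq => ?_
          exact ⟨hq.2.1, hq.2.2.1, hq.2.2.2⟩
        · rw [indicator_of_notMem hw]
          refine le_of_eq ?_
          refine measure_mono_null (t := ∅) (fun q hq => ?_) measure_empty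
          exact absurd hq.1 hw
      calc l ^ 2 * energy S ≤ l ^ 2 * ∫⁻ w in S, Q97.RS.reps S w := mul_le_mul_right h1 _
        _ ≤ ∫⁻ w in S, l ^ 2 * Q97.RS.reps S w := lintegral_const_mul_le _ _
        _ ≤ ∫⁻ _ in S, C * eLpNorm f ∞ (sigma n) ^ 2 *
            (volume S) ^ (((n : ℝ) + 1) / n) := by
          refine lintegral_mono fun w => ?_
          have := hT.reps_le hd hS hl w
          rw [hfr] at this
          exact this
        _ = _ := by
          rw [setLIntegral_const, mul_assoc]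
          congr 1
          conv_lhs => rw [← ENNReal.rpow_one (volume S), ← ENNReal.rpow_mul, one_mul]
          rw [← ENNReal.rpow_add_of_nonneg _ _ (by positivity) zero_le_one]
          congr 1
          field_simp
          ring
  · intro q hq
    obtain ⟨C1, hC1, hs⟩ := Q97.RS.TwoPoint.strong (V := E n) (n := n) (by rw [hfr]) hd hq
    refine ⟨C1 * (C + C ^ (1 / 2 : ℝ)), fun f hf A Φ hA hΦ hS => ?_⟩
    obtain ⟨hm, hT, hb⟩ := hbasic f hf
    have h1 := hs hm hT hb hΦ hS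
    refine h1.trans (mul_le_mul_left ?_ _)
    set M : ℝ≥0∞ := eLpNorm f ∞ (sigma n) with hM
    have hA1 : (1 : ℝ≥0∞) ≤ (A : ℝ≥0∞) ^ (1 + 1 / (2 * (n : ℝ))) :=
      ENNReal.one_le_rpow (by exact_mod_cast hA) (by positivity)
    have h2 : (C * M ^ 2 * (A : ℝ≥0∞) ^ ((2 * (n : ℝ) + 1) / n)) ^ (1 / 2 : ℝ) =
        (C : ℝ≥0∞) ^ (1 / 2 : ℝ) * M * (A : ℝ≥0∞) ^ (1 + 1 / (2 * (n : ℝ))) := by
      rw [ENNReal.mul_rpow_of_nonneg _ _ (by norm_num),
        ENNReal.mul_rpow_of_nonneg _ _ (by norm_num), ← ENNReal.rpow_mul]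
      congr 2
      · rw [← ENNReal.rpow_natCast, ← ENNReal.rpow_mul]
        norm_num
      · field_simp
    rw [h2]
    calc (C1 : ℝ≥0∞) * (C * M + (C : ℝ≥0∞) ^ (1 / 2 : ℝ) * M *
          (A : ℝ≥0∞) ^ (1 + 1 / (2 * (n : ℝ))))
        ≤ C1 * (C * M * (A : ℝ≥0∞) ^ (1 + 1 / (2 * (n : ℝ))) +
          (C : ℝ≥0∞) ^ (1 / 2 : ℝ) * M * (A : ℝ≥0∞) ^ (1 + 1 / (2 * (n : ℝ)))) := by
          refine mul_le_mul_right (add_le_add ?_ le_rfl) _
          exact le_mul_of_one_le_right zero_le hA1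
      _ = _ := by
          rw [ENNReal.coe_mul, ENNReal.coe_add, ENNReal.coe_rpow_of_nonneg _ (by norm_num)]
          ring

end Pool.Agent.Results.MP_6cbfb8_an.AdditiveStructure
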