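import Mathlib
import Pool.Agent.Q193.RD.Good
import Pool.Agent.Q193.RD.Pieces
import Pool.Agent.Q193.RD.Sum
import Pool.Agent.H789R2.FR.Sph
set_option autoImplicit false

/-!
# Stein's restriction conjecture: almost every continuous density is almost extremal

Let `n ≥ 2`. For a density `g` on the unit sphere of `ℝ^n` let `ft g` be the Fourier transform of
`g dσ`.

* Almost every continuous density `h` (in the sense of prevalence, Christensen and
  Hunt-Sauer-Yorke) is almost extremal for the restriction problem, for all exponents and on all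
  balls at once: there is `C` with
  `‖ft g‖_{L^q(B_R)} ≤ C (log R)^10 ‖g‖_∞ ‖ft h‖_{L^q(B_R)}` for all `1 ≤ q ≤ ∞`, all `R ≥ 2` and
  all bounded densities `g`.
* Almost every continuous density `h` decides the conjecture, exponent by exponent: if `ft h` is in
  `L^q`, then `ft g` is in `L^q` for all bounded densities `g`. So for each `q` either all bounded
  densities satisfy the conjecture, or almost every continuous density is a counterexample.
* Both properties can be achieved from any bounded density `f` by adding a function `h ≥ 0` which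
  is smooth away from one given point `p`, and which vanishes at `p` faster than any prescribed
  rate. In particular (`f = 0`) there is one continuous density, smooth outside one point and
  vanishing there as fast as we please, which is almost extremal and decides the conjecture for all
  exponents. (A density which is smooth at `p` too satisfies the conjecture, by stationary phase.)
-/

namespace Pool.Agent.Results.MP_6cbfb8_an.PrevalentDensities

open MeasureTheory Set Metric Filter Topology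
open scoped ENNReal NNReal RealInnerProductSpace ContDiff

/-- Euclidean space -/
abbrev E (n : ℕ) := EuclideanSpace ℝ (Fin n)

/-- the unit sphere -/
abbrev S (n : ℕ) := sphere (0 : E n) 1

/-- surface measure on the unit sphere -/
noncomputable def sigma (n : ℕ) : Measure (S n) := (volume : Measure (E n)).toSphere

/-- the Fourier transform of the measure `g dσ` -/
noncomputable def ft {n : ℕ} (g : S n → ℂ) (ξ : E n) : ℂ :=
  ∫ x, Complex.exp (-(2 * Real.pi * ⟪(x : E n), ξ⟫ : ℝ) * Complex.I) * g x ∂(sigma n)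

/-- `h` decides the restriction conjecture, exponent by exponent: if the Fourier transform of
`h dσ` is in `L^q`, so is that of every bounded density. -/
def Decisive {n : ℕ} (h : S n → ℂ) : Prop :=
  ∀ q : ℝ≥0∞, 1 ≤ q → MemLp (ft h) q → ∀ g : S n → ℂ, MemLp g ∞ (sigma n) → MemLp (ft g) q

/-- `h` is extremal up to powers of `log R`, for all exponents and on all balls `B_R`, `R ≥ 2`, at
once. -/
def AlmostExtremal {n : ℕ} (h : S n → ℂ) : Prop :=
  ∃ C : ℝ, ∀ q : ℝ≥0∞, 1 ≤ q → ∀ R : ℝ, 2 ≤ R → ∀ g : S n → ℂ, MemLp g ∞ (sigma n) →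
    eLpNorm (ft g) q (volume.restrict (ball 0 R)) ≤ ENNReal.ofReal (C * Real.log R ^ 10) *
      eLpNorm g ∞ (sigma n) * eLpNorm (ft h) q (volume.restrict (ball 0 R))

/-- Prevalence (almost every, in the sense of Christensen and Hunt-Sauer-Yorke): `A` contains a
Borel set `B` for which there is a compactly supported Borel probability measure `ν` which gives
measure zero to all translates of the complement of `B`. -/
def Prevalent {X : Type*} [AddCommGroup X] [TopologicalSpace X] (A : Set X) : Prop :=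
  ∃ B ⊆ A, MeasurableSet[borel X] B ∧ ∃ ν : @Measure X (borel X),
    @IsProbabilityMeasure X (borel X) ν ∧ (∃ K : Set X, IsCompact K ∧ ν Kᶜ = 0) ∧
      ∀ f : X, ν {h | f + h ∉ B} = 0

open Pool.Agent.H789R2.FR (sg)
open Pool.Agent.Q97.RS (ch Fh)
open Pool.Agent.Q193.RD

lemma ft_eq {n : ℕ} (G : E n → ℂ) : ft (fun x : S n => G x) = Fh (sg n) G := by
  funext ξ
  unfold ft Fh sg
  rw [(MeasurableEmbedding.subtype_coe isClosed_sphere.measurableSet).integral_map]
  rfl

lemma ft_congr {n : ℕ} {g h : S n → ℂ} (hgh : g =ᵐ[sigma n] h) : ft g = ft h := by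
  funext ξ
  unfold ft
  refine integral_congr_ae ?_
  filter_upwards [hgh] with x hx
  rw [hx]

/-- Bounded densities extend to bounded functions. -/
lemma lift {n : ℕ} {g : S n → ℂ} (hg : MemLp g ∞ (sigma n)) : ∃ G : E n → ℂ, Measurable G ∧
    (∀ x, ‖G x‖ ≤ (eLpNorm g ∞ (sigma n)).toReal) ∧ (fun x : S n => G x) =ᵐ[sigma n] g := by
  classical
  set M : ℝ := (eLpNorm g ∞ (sigma n)).toReal with hM
  have hM0 : 0 ≤ M := ENNReal.toReal_nonneg
  have hg'm : Measurable (hg.1.mk g) := hg.1.stronglyMeasurable_mk.measurable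
  have hb : ∀ᵐ x ∂(sigma n), ‖g x‖ ≤ M := by
    have h1 := ae_le_eLpNormEssSup (f := g) (μ := sigma n)
    filter_upwards [h1] with x hx
    rw [← eLpNorm_exponent_top] at hx
    have h2 := ENNReal.toReal_mono hg.2.ne hx
    rwa [toReal_enorm] at h2
  set g2 : S n → ℂ := {x : S n | ‖hg.1.mk g x‖ ≤ M}.indicator (hg.1.mk g) with hg2
  have hg2m : Measurable g2 :=
    hg'm.indicator (measurableSet_le hg'm.norm measurable_const)
  refine ⟨ex0 g2, ex0_meas hg2m, fun x => ex0_norm hM0 (fun z => ?_) x, ?_⟩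
  · rw [hg2]
    by_cases hz : z ∈ {x : S n | ‖hg.1.mk g x‖ ≤ M}
    · rw [indicator_of_mem hz]
      exact hz
    · rw [indicator_of_notMem hz, norm_zero]
      exact hM0
  · filter_upwards [hb, hg.1.ae_eq_mk] with x hx1 hx2
    have h1 : x ∈ {x : S n | ‖hg.1.mk g x‖ ≤ M} := by
      change ‖hg.1.mk g x‖ ≤ M
      rw [← hx2]
      exact hx1
    rw [ex0_of, hg2, indicator_of_mem h1, ← hx2]

/-- Good functions give good densities. -/
lemma good_dens {n : ℕ} {H : E n → ℂ} (hG : Good (sg n) H) {h : S n → ℂ}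
    (hh : (fun x : S n => H x) =ᵐ[sigma n] h) : Decisive h ∧ AlmostExtremal h := by
  have := Pool.Agent.H789R2.FR.sg_finite n
  have hft : ft h = Fh (sg n) H := by rw [← ft_eq, ft_congr hh]
  obtain ⟨h1, C, hC, h2⟩ := hG
  refine ⟨fun q hq hm g hg => ?_, C, fun q hq R hR g hg => ?_⟩
  · obtain ⟨G, hGm, hGb, hGg⟩ := lift hg
    have hGB : Bd G := ⟨hGm, _, hGb⟩
    have hftg : ft g = Fh (sg n) G := by rw [← ft_eq, ft_congr hGg]
    rw [hft] at hm
    rw [hftg]
    exact ⟨(Fh_sm (sg n) hGB).aestronglyMeasurable, h1 q hq hm.2 G hGB⟩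
  · obtain ⟨G, hGm, hGb, hGg⟩ := lift hg
    have hGB : Bd G := ⟨hGm, _, hGb⟩
    have hftg : ft g = Fh (sg n) G := by rw [← ft_eq, ft_congr hGg]
    rw [hft, hftg]
    set M : ℝ := (eLpNorm g ∞ (sigma n)).toReal with hM
    have hM0 : 0 ≤ M := ENNReal.toReal_nonneg
    rw [← ENNReal.ofReal_toReal hg.2.ne, ← hM]
    change nR (sg n) q R G ≤ ENNReal.ofReal (C * Real.log R ^ 10) * ENNReal.ofReal M *
      nR (sg n) q R H
    rcases hM0.eq_or_lt with h0 | h0
    · have hG0 : G = 0 := by
        funext x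
        have := hGb x
        rw [← h0] at this
        exact norm_le_zero_iff.1 this
      rw [hG0, nR_zero]
      exact bot_le
    · have h3 := h2 q hq R hR (((M⁻¹ : ℝ) : ℂ) • G) (hGm.const_smul _) (fun x => by
        rw [Pi.smul_apply, norm_smul, Complex.norm_real, Real.norm_eq_abs,
          abs_of_nonneg (by positivity), inv_mul_le_iff₀ h0, mul_one]
        exact hGb x)
      have h4 : G = ((M : ℝ) : ℂ) • (((M⁻¹ : ℝ) : ℂ) • G) := by
        rw [smul_smul, ← Complex.ofReal_mul, mul_inv_cancel₀ h0.ne', Complex.ofReal_one, one_smul]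
      have h5 : ‖((M : ℝ) : ℂ)‖ₑ = ENNReal.ofReal M := by
        rw [← ofReal_norm, Complex.norm_real, Real.norm_eq_abs, abs_of_nonneg hM0]
      calc nR (sg n) q R G = ENNReal.ofReal M * nR (sg n) q R (((M⁻¹ : ℝ) : ℂ) • G) := by
            conv_lhs => rw [h4]
            rw [nR_smul, h5]
        _ ≤ ENNReal.ofReal M * (ENNReal.ofReal (C * Real.log R ^ 10) * nR (sg n) q R H) :=
            mul_le_mul_right h3 _
        _ = _ := by ring

lemma sg_ne {n : ℕ} (hn : 2 ≤ n) : sg n univ ≠ 0 := by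
  have h1 := Pool.Agent.Helper36.SphMeas.toSphere_univ_ne_zero (d := n) (by omega)
  rw [Pool.Agent.H789R2.FR.sg_apply MeasurableSet.univ, preimage_univ]
  exact h1

lemma tasks_of_real {n : ℕ} {q : ℕ → ℝ≥0∞} {R : ℕ → ℝ} {C : ℝ} (hC : 0 < C) {H : E n → ℂ}
    (h : ∀ (i : ℕ) (g : E n → ℂ), Measurable g → (∀ x, ‖g x‖ ≤ 1) →
      (nR (sg n) (q i) (R i) g).toReal ≤ C * ((i : ℝ) + 2) ^ 5 *
        (nR (sg n) (q i) (R i) H).toReal) : Tasks (sg n) q R C H := by
  have := Pool.Agent.H789R2.FR.sg_finite n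
  intro i g hg hg1
  rw [← ENNReal.toReal_le_toReal (nR_top (sg n) (q i) (R i) g).ne
    (ENNReal.mul_ne_top ENNReal.ofReal_ne_top (nR_top (sg n) (q i) (R i) H).ne),
    ENNReal.toReal_mul, ENNReal.toReal_ofReal (by positivity)]
  exact h i g hg hg1

/-- **Almost every continuous density is almost extremal and decides the restriction
conjecture.** -/
theorem result (n : ℕ) (hn : 2 ≤ n) :
    Prevalent {h : C(S n, ℂ) | Decisive (h : S n → ℂ) ∧ AlmostExtremal (h : S n → ℂ)} ∧
    (∀ q : ℝ≥0∞, 1 ≤ q → (∀ g : S n → ℂ, MemLp g ∞ (sigma n) → MemLp (ft g) q) ∨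
      Prevalent {h : C(S n, ℂ) | ¬ MemLp (ft (h : S n → ℂ)) q}) ∧
    ∀ (p : S n) (w : ℝ → ℝ), Continuous w → (∀ r, 0 < r → 0 < w r) →
      ∀ f : S n → ℂ, MemLp f ∞ (sigma n) →
      ∃ h : E n → ℝ, Continuous h ∧ ContDiffOn ℝ ∞ h {(p : E n)}ᶜ ∧
        (∀ x, 0 ≤ h x ∧ h x ≤ w (dist x p)) ∧
        Decisive (fun x : S n => f x + (h x : ℂ)) ∧
        AlmostExtremal (fun x : S n => f x + (h x : ℂ)) := by
  have := Pool.Agent.H789R2.FR.sg_finite n
  have hsph := Pool.Agent.H789R2.FR.sg_ae n
  have hinv := fun L => Pool.Agent.H789R2.FR.sg_inv (n := n) L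
  have hd : 2 ≤ Module.finrank ℝ (E n) := by simpa using hn
  obtain ⟨q, R, hq, hset⟩ := setup (sg n) (sg_ne hn)
  have hA : Prevalent {h : C(S n, ℂ) | Decisive (h : S n → ℂ) ∧
      AlmostExtremal (h : S n → ℂ)} := by
    let _ : MeasurableSpace C(S n, ℂ) := borel _
    have : BorelSpace C(S n, ℂ) := ⟨rfl⟩
    have : Nonempty (Fin n) := ⟨⟨0, by omega⟩⟩
    obtain ⟨p, hp⟩ : ∃ p : E n, ‖p‖ = 1 := by
      obtain ⟨p, hp⟩ := (NormedSpace.sphere_nonempty (x := (0 : E n)) (r := 1)).2 zero_le_one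
      exact ⟨p, by simpa using hp⟩
    obtain ⟨x, K, hK, hx1, hx2, hx3, -, -, hx6⟩ := pieces (sg n) hsph hinv hd p hp (fun _ => 1)
      continuous_const (fun _ _ => one_pos) q hq R
    have hxc : ∀ i, Continuous (x i) := fun i => (hx1 i).continuous
    set T : Cu → C(S n, ℂ) := rs aa (yy x hxc) with hT
    have hTc : Continuous T := rs_cont aa_nn aa_sum.1 (yy_norm x hxc hx2 hx3)
    set B : Set C(S n, ℂ) := {G : C(S n, ℂ) | ∃ C : ℕ, ∀ (i : ℕ) (g : E n → ℂ), Measurable g →
      (∀ x, ‖g x‖ ≤ 1) → (nR (sg n) (q i) (R i) g).toReal ≤ C * ((i : ℝ) + 2) ^ 5 *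
        PX (sg n) (q i) (hq i) (R i) G} with hB
    have hBm : MeasurableSet B := by
      have h1 : B = ⋃ C : ℕ, {G : C(S n, ℂ) |
            ∀ (i : ℕ) (g : E n → ℂ), Measurable g →
          (∀ x, ‖g x‖ ≤ 1) → (nR (sg n) (q i) (R i) g).toReal ≤ C * ((i : ℝ) + 2) ^ 5 *
            PX (sg n) (q i) (hq i) (R i) G} := by
        ext G
        rw [mem_iUnion]
        rfl
      rw [h1]
      refine MeasurableSet.iUnion fun C => IsClosed.measurableSet ?_
      have h2 : {G : C(S n, ℂ) | ∀ (i : ℕ) (g : E n → ℂ), Measurable g →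
          (∀ x, ‖g x‖ ≤ 1) → (nR (sg n) (q i) (R i) g).toReal ≤ C * ((i : ℝ) + 2) ^ 5 *
            PX (sg n) (q i) (hq i) (R i) G} = ⋂ (i : ℕ) (g : E n → ℂ) (_ : Measurable g)
            (_ : ∀ x, ‖g x‖ ≤ 1), {G : C(S n, ℂ) | (nR (sg n) (q i) (R i) g).toReal ≤
              C * ((i : ℝ) + 2) ^ 5 * PX (sg n) (q i) (hq i) (R i) G} := by
        ext G
        simp only [mem_iInter]
        rfl
      rw [h2]
      exact isClosed_iInter fun i => isClosed_iInter fun g => isClosed_iInter fun _ =>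
        isClosed_iInter fun _ => isClosed_le continuous_const
          (continuous_const.mul (PX_cont (sg n) (q i) (hq i) (R i)))
    refine ⟨B, ?_, hBm, PP.map T, ?_, ?_, ?_⟩
    · rintro G ⟨C, hC⟩
      have h1 : Tasks (sg n) q R (C + 1) (ex0 (G : S n → ℂ)) := by
        refine tasks_of_real (by positivity) fun i g hg hg1 => (hC i g hg hg1).trans ?_
        rw [PX_apply]
        have h2 : 0 ≤ (nR (sg n) (q i) (R i) (ex0 (G : S n → ℂ))).toReal :=
          ENNReal.toReal_nonneg
        refine mul_le_mul_of_nonneg_right ?_ h2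
        exact mul_le_mul_of_nonneg_right (by linarith) (by positivity)
      refine good_dens (hset _ (ex0_bd G) _ (by positivity) h1) ?_
      exact Eventually.of_forall fun x => ex0_of _ x
    · exact Measure.isProbabilityMeasure_map hTc.measurable.aemeasurable
    · refine ⟨range T, isCompact_range hTc, ?_⟩
      rw [Measure.map_apply hTc.measurable (isCompact_range hTc).isClosed.measurableSet.compl]
      have h1 : T ⁻¹' (range T)ᶜ = ∅ := by
        ext t
        simp
      rw [h1, measure_empty]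
    · intro f
      have hm : MeasurableSet {h | f + h ∉ B} :=
        (continuous_const.add continuous_id).measurable hBm.compl
      rw [Measure.map_apply hTc.measurable hm]
      have hae := ae_tasks x hx2 hx3 (sg n) hsph hxc q hq R K hK hx6 (ex0 (f : S n → ℂ)) (ex0_bd f)
      refine measure_mono_null (fun t ht => ?_) (ae_iff.1 hae)
      rintro ⟨C, hC, h⟩
      refine ht ⟨⌈C⌉₊, fun i g hg hg1 => (h i g hg hg1).trans ?_⟩
      have h1 : PF (sg n) (q i) (R i) (ex0 (f : S n → ℂ)) (rs aa (yy x hxc) t) =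
          PX (sg n) (q i) (hq i) (R i) (f + T t) := by
        rw [PX_apply, ContinuousMap.coe_add, ex0_add]
        rfl
      rw [h1]
      refine mul_le_mul_of_nonneg_right ?_ (apply_nonneg _ _)
      exact mul_le_mul_of_nonneg_right (Nat.le_ceil C) (by positivity)
  refine ⟨hA, fun q0 hq0 => ?_, ?_⟩
  · by_cases hall : ∀ g : S n → ℂ, MemLp g ∞ (sigma n) → MemLp (ft g) q0
    · exact Or.inl hall
    · right
      obtain ⟨B, hB1, hB2⟩ := hA
      exact ⟨B, fun h hh hm => hall ((hB1 hh).1 q0 hq0 hm), hB2⟩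
  · intro p w hw hw0 f hf
    obtain ⟨F, hFm, hFb, hFf⟩ := lift hf
    have hFB : Bd F := ⟨hFm, _, hFb⟩
    have hp : ‖(p : E n)‖ = 1 := by simp
    obtain ⟨x, K, hK, hx1, hx2, hx3, hx4, hx5, hx6⟩ :=
      pieces (sg n) hsph hinv hd p hp w hw hw0 q hq R
    have hxc : ∀ i, Continuous (x i) := fun i => (hx1 i).continuous
    have hae := ae_tasks x hx2 hx3 (sg n) hsph hxc q hq R K hK hx6 F hFB
    obtain ⟨t, C, hC, ht⟩ := hae.exists
    have hgood := good_dens (h := fun x' : S n => f x' + (Hf x t x' : ℂ))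
      (hset _ (hFB.add (ex0_bd (rs aa (yy x hxc) t))) C hC (tasks_of_real hC ht)) (by
        filter_upwards [hFf] with z hz
        rw [Pi.add_apply, hz, ex0_of, rs_apply x hx2 hx3 hxc t z])
    exact ⟨Hf x t, Hf_cont x hx2 hx3 hxc t, Hf_smooth x hx2 hx3 hx1 p hx5 t,
      fun z => ⟨Hf_nn x hx2 hx3 t z, Hf_le x hx2 hx3 t z _ ((hx2 0 z).trans (hx4 0 z))
        fun i => hx4 i z⟩, hgood.1, hgood.2⟩

end Pool.Agent.Results.MP_6cbfb8_an.PrevalentDensities
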