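import Mathlib
import Pool.Agent.Q83.RP.G
set_option autoImplicit false

/-!
# Stein's restriction conjecture: pieces in pairwise independent positions

Let `f` be a bounded function on the unit sphere of `ℝ^n`, `n ≥ 2`, cut into finitely many pieces
`f 1_{θ_j}` of small measure (wave packets, if the pieces are caps of radius `R^{-1/2}`). Multiply
the piece number `j` by `exp (2 π i (k_j s + r ⟨x, frac (u + k_j v)⟩))`: this does not change `|f|`,
it translates the Fourier transform of the piece by the vector `r frac (u + k_j v)` and multiplies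
it by the number `exp (2 π i k_j s)`. Here `k_j` is a Sidon sequence of integers and
`(u, v, s)` is a point of the unit box of `ℝ^(2n+1)`.

For every `f`, on average over the `2n+1` parameters, the extension estimate of the restriction
conjecture holds on balls of radius `R` for all `q ≥ 2n/(n-1)`, the endpoint `q = 2n/(n-1)` (where
the estimate fails for `f = 1`) included, without any loss in `R`.
-/

namespace Pool.Agent.Results.MP_6cbfb8_an.RandomPositions

open MeasureTheory Set Metric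
open scoped ENNReal RealInnerProductSpace

/-- Euclidean space -/
abbrev E (n : ℕ) := EuclideanSpace ℝ (Fin n)

/-- surface measure on the unit sphere -/
noncomputable def sigma (n : ℕ) : Measure (sphere (0 : E n) 1) := (volume : Measure (E n)).toSphere

/-- the Fourier transform of the measure `g dσ` -/
noncomputable def ft {n : ℕ} (g : sphere (0 : E n) 1 → ℂ) (ξ : E n) : ℂ :=
  ∫ x, Complex.exp (-(2 * Real.pi * ⟪(x : E n), ξ⟫ : ℝ) * Complex.I) * g x ∂(sigma n)

/-- The sets `θ_j` are measurable, pairwise disjoint, and of surface measure at most `δ`. -/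
def Pieces {n N : ℕ} (θ : Fin N → Set (sphere (0 : E n) 1)) (δ : ℝ) : Prop :=
  (∀ j, MeasurableSet (θ j)) ∧ (Pairwise fun i j => Disjoint (θ i) (θ j)) ∧
    ∀ j, sigma n (θ j) ≤ ENNReal.ofReal δ

/-- Sidon sequences of integers: the sum of two terms determines the two terms. -/
def Sidon {N : ℕ} (k : Fin N → ℤ) : Prop :=
  ∀ a b c d, k a + k b = k c + k d → (a = c ∧ b = d) ∨ (a = d ∧ b = c)

/-- The unit box `[0,1)^n × [0,1)^n × [0,1)` of the parameters `(u, v, s)`. -/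
def box (n : ℕ) : Set ((Fin n → ℝ) × (Fin n → ℝ) × ℝ) :=
  (univ.pi fun _ => Ico 0 1) ×ˢ (univ.pi fun _ => Ico 0 1) ×ˢ Ico 0 1

/-- On the piece `θ_j` the density `f` is multiplied by the unimodular function
`exp (2 π i (k_j s + r ⟨x, frac (u + k_j v)⟩))`, where `p = (u, v, s)`; outside the pieces the new
density is `0`. -/
noncomputable def moved {n N : ℕ} (f : sphere (0 : E n) 1 → ℂ)
    (θ : Fin N → Set (sphere (0 : E n) 1)) (k : Fin N → ℤ) (r : ℝ)
    (p : (Fin n → ℝ) × (Fin n → ℝ) × ℝ) (x : sphere (0 : E n) 1) : ℂ :=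
  ∑ j, (θ j).indicator (fun x => Complex.exp ((2 * Real.pi * (k j * p.2.2 +
    r * ∑ i, (x : E n) i * Int.fract (p.1 i + k j * p.2.1 i)) : ℝ) * Complex.I) * f x) x

/-! ### Proofs -/

theorem norm_moved {n N : ℕ} (f : sphere (0 : E n) 1 → ℂ)
    (θ : Fin N → Set (sphere (0 : E n) 1)) (hd : Pairwise fun i j => Disjoint (θ i) (θ j))
    (k : Fin N → ℤ) (r : ℝ) (p : (Fin n → ℝ) × (Fin n → ℝ) × ℝ) (x : sphere (0 : E n) 1) :
    (∀ j, x ∈ θ j → ‖moved f θ k r p x‖ = ‖f x‖) ∧ ‖moved f θ k r p x‖ ≤ ‖f x‖ := by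
  have h1 : ∀ j, x ∈ θ j → ‖moved f θ k r p x‖ = ‖f x‖ := by
    intro j hj
    unfold moved
    rw [Finset.sum_eq_single j]
    · rw [indicator_of_mem hj, norm_mul, Complex.norm_exp_ofReal_mul_I, one_mul]
    · intro i _ hi
      rw [indicator_of_notMem fun hx => (Set.disjoint_left.1 (hd hi) hx) hj]
    · intro h
      exact absurd (Finset.mem_univ j) h
  refine ⟨h1, ?_⟩
  by_cases h : ∃ j, x ∈ θ j
  · obtain ⟨j, hj⟩ := h
    exact (h1 j hj).le
  · push Not at h
    have : moved f θ k r p x = 0 := by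
      unfold moved
      exact Finset.sum_eq_zero fun j _ => indicator_of_notMem (h j) _
    rw [this, norm_zero]
    exact norm_nonneg _

/-- **Main theorem.** Let `n ≥ 2`.

(1) There is `C` such that for all `2 ≤ q ≤ 4`, all measurable `f` with `|f| ≤ M`, all pieces
`θ_j` of measure at most `δ`, all Sidon integers `k_j`, all `0 < r ≤ R` and all balls `B` of radius
`R`, the average over the parameters `p` of the unit box of `ℝ^(2n+1)` of
`∫_B |(f_p dσ)^|^q` is at most `C M^q R (r^(-(n-1)(q-2)/2) + δ^(q-2))`, where `f_p` is the moved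
density.

(2) For all `q ≥ 2n/(n-1)` and `K > 0` there is `C` such that, if the pieces have measure at most
`K R^(-(n-1)/2)`, this average is at most `C M^q R / r`; for `r = R` it is at most `C M^q`. -/
theorem result (n : ℕ) (hn : 2 ≤ n) :
    (∃ C : ℝ, 0 < C ∧ ∀ q : ℝ, 2 ≤ q → q ≤ 4 →
      ∀ f : sphere (0 : E n) 1 → ℂ, Measurable f → ∀ M : ℝ, 0 ≤ M → (∀ x, ‖f x‖ ≤ M) →
      ∀ (N : ℕ) (θ : Fin N → Set (sphere (0 : E n) 1)) (δ : ℝ), 0 ≤ δ → Pieces θ δ →
      ∀ k : Fin N → ℤ, Sidon k → ∀ r R : ℝ, 0 < r → r ≤ R → ∀ a : E n,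
      ∫⁻ p in box n, ∫⁻ ξ in closedBall a R, ‖ft (moved f θ k r p) ξ‖ₑ ^ q ≤
        ENNReal.ofReal (C * M ^ q * R * (r ^ (-(((n : ℝ) - 1) * (q - 2) / 2)) + δ ^ (q - 2)))) ∧
    (∀ q : ℝ, 2 * n / ((n : ℝ) - 1) ≤ q → ∀ K : ℝ, 0 < K → ∃ C : ℝ, 0 < C ∧
      ∀ f : sphere (0 : E n) 1 → ℂ, Measurable f → ∀ M : ℝ, 0 ≤ M → (∀ x, ‖f x‖ ≤ M) →
      ∀ r R : ℝ, 0 < r → r ≤ R →
      ∀ (N : ℕ) (θ : Fin N → Set (sphere (0 : E n) 1)),
      Pieces θ (K * R ^ (-(((n : ℝ) - 1) / 2))) →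
      ∀ k : Fin N → ℤ, Sidon k → ∀ a : E n,
      ∫⁻ p in box n, ∫⁻ ξ in closedBall a R, ‖ft (moved f θ k r p) ξ‖ₑ ^ q ≤
        ENNReal.ofReal (C * M ^ q * (R / r))) := by
  obtain ⟨C, hC, hcore⟩ := Q83.RP.core n hn
  have h1 : ∀ q : ℝ, 2 ≤ q → q ≤ 4 →
      ∀ f : sphere (0 : E n) 1 → ℂ, Measurable f → ∀ M : ℝ, 0 ≤ M → (∀ x, ‖f x‖ ≤ M) →
      ∀ (N : ℕ) (θ : Fin N → Set (sphere (0 : E n) 1)) (δ : ℝ), 0 ≤ δ → Pieces θ δ →
      ∀ k : Fin N → ℤ, Sidon k → ∀ r R : ℝ, 0 < r → r ≤ R → ∀ a : E n,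
      ∫⁻ p in box n, ∫⁻ ξ in closedBall a R, ‖ft (moved f θ k r p) ξ‖ₑ ^ q ≤
        ENNReal.ofReal (C * M ^ q * R *
          (r ^ (-(((n : ℝ) - 1) * (q - 2) / 2)) + δ ^ (q - 2))) := by
    intro q h2 h4 f hf M hM hfM N θ δ hδ hθ k hk r R hr hrR a
    exact hcore q h2 h4 f hf M hM hfM N θ hθ.1 hθ.2.1 δ hδ hθ.2.2 k hk r R hr hrR a
  refine ⟨⟨C, hC, h1⟩, ?_⟩
  intro q hq K hK
  have hn' : (2 : ℝ) ≤ n := by exact_mod_cast hn
  have hn1 : 0 < (n : ℝ) - 1 := by linarith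
  set q0 : ℝ := 2 * n / ((n : ℝ) - 1) with hq0
  have hq2 : q0 - 2 = 2 / ((n : ℝ) - 1) := by
    rw [hq0]
    field_simp
    ring
  have hq02 : 2 ≤ q0 := by
    have : 0 ≤ 2 / ((n : ℝ) - 1) := by positivity
    linarith
  have hq04 : q0 ≤ 4 := by
    rw [hq0, div_le_iff₀ hn1]
    linarith
  set S : ℝ := (sigma n).real univ with hS
  have hS0 : 0 ≤ S := measureReal_nonneg
  have hfin : IsFiniteMeasure (sigma n) := by unfold sigma; infer_instance
  refine ⟨(S + 1) ^ (q - q0) * (C * (1 + K ^ (q0 - 2))), by positivity, ?_⟩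
  intro f hf M hM hfM r R hr hrR N θ hθ k hk a
  have hR : 0 < R := hr.trans_le hrR
  have h2 := h1 q0 hq02 hq04 f hf M hM hfM N θ _ (by positivity) hθ k hk r R hr hrR a
  have hsup : ∀ p ξ, ‖ft (moved f θ k r p) ξ‖ₑ ≤ ENNReal.ofReal (M * S) := by
    intro p ξ
    rw [← ofReal_norm]
    apply ENNReal.ofReal_le_ofReal
    unfold ft
    refine (norm_integral_le_of_norm_le_const (C := M)
      (Filter.Eventually.of_forall fun x => ?_)).trans (le_of_eq rfl)
    rw [norm_mul, show -((2 * Real.pi * ⟪(x : E n), ξ⟫ : ℝ) : ℂ) * Complex.I =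
      ((-(2 * Real.pi * ⟪(x : E n), ξ⟫) : ℝ) : ℂ) * Complex.I by push_cast; ring,
      Complex.norm_exp_ofReal_mul_I, one_mul]
    exact (norm_moved f θ hθ.2.1 k r p x).2.trans (hfM x)
  have hpt : ∀ p ξ, ‖ft (moved f θ k r p) ξ‖ₑ ^ q ≤
      ENNReal.ofReal ((M * S) ^ (q - q0)) * ‖ft (moved f θ k r p) ξ‖ₑ ^ q0 := by
    intro p ξ
    have e : ‖ft (moved f θ k r p) ξ‖ₑ ^ q =
        ‖ft (moved f θ k r p) ξ‖ₑ ^ (q - q0) * ‖ft (moved f θ k r p) ξ‖ₑ ^ q0 := by
      rw [← ENNReal.rpow_add_of_nonneg _ _ (by linarith) (by linarith)]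
      congr 1
      ring
    rw [e, ← ENNReal.ofReal_rpow_of_nonneg (by positivity) (by linarith)]
    exact mul_le_mul' (ENNReal.rpow_le_rpow (hsup p ξ) (by linarith)) le_rfl
  calc ∫⁻ p in box n, ∫⁻ ξ in closedBall a R, ‖ft (moved f θ k r p) ξ‖ₑ ^ q
      ≤ ∫⁻ p in box n, ENNReal.ofReal ((M * S) ^ (q - q0)) *
          ∫⁻ ξ in closedBall a R, ‖ft (moved f θ k r p) ξ‖ₑ ^ q0 := by
        refine lintegral_mono fun p => ?_
        refine (lintegral_mono fun ξ => hpt p ξ).trans (le_of_eq ?_)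
        rw [lintegral_const_mul' _ _ ENNReal.ofReal_ne_top]
    _ = ENNReal.ofReal ((M * S) ^ (q - q0)) * ∫⁻ p in box n, ∫⁻ ξ in closedBall a R,
          ‖ft (moved f θ k r p) ξ‖ₑ ^ q0 := lintegral_const_mul' _ _ ENNReal.ofReal_ne_top
    _ ≤ ENNReal.ofReal ((M * S) ^ (q - q0)) * ENNReal.ofReal (C * M ^ q0 * R *
          (r ^ (-(((n : ℝ) - 1) * (q0 - 2) / 2)) +
            (K * R ^ (-(((n : ℝ) - 1) / 2))) ^ (q0 - 2))) := mul_le_mul' le_rfl h2
    _ = ENNReal.ofReal ((M * S) ^ (q - q0) * (C * M ^ q0 * R *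
          (r ^ (-(((n : ℝ) - 1) * (q0 - 2) / 2)) +
            (K * R ^ (-(((n : ℝ) - 1) / 2))) ^ (q0 - 2)))) :=
        (ENNReal.ofReal_mul (by positivity)).symm
    _ ≤ _ := by
        apply ENNReal.ofReal_le_ofReal
        have e1 : -(((n : ℝ) - 1) * (q0 - 2) / 2) = -1 := by
          rw [hq2]
          field_simp
        have e2 : (K * R ^ (-(((n : ℝ) - 1) / 2))) ^ (q0 - 2) = K ^ (q0 - 2) * R⁻¹ := by
          rw [Real.mul_rpow hK.le (by positivity), ← Real.rpow_mul hR.le]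
          congr 1
          rw [← Real.rpow_neg_one]
          congr 1
          rw [hq2]
          field_simp
        have e3 : (M * S) ^ (q - q0) * M ^ q0 ≤ (S + 1) ^ (q - q0) * M ^ q := by
          rw [Real.mul_rpow hM hS0]
          have e4 : M ^ (q - q0) * M ^ q0 = M ^ q := by
            rw [← Real.rpow_add_of_nonneg hM (by linarith) (by linarith)]
            congr 1
            ring
          calc M ^ (q - q0) * S ^ (q - q0) * M ^ q0 = S ^ (q - q0) * (M ^ (q - q0) * M ^ q0) := by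
                ring
            _ = S ^ (q - q0) * M ^ q := by rw [e4]
            _ ≤ _ := by
                refine mul_le_mul_of_nonneg_right ?_ (by positivity)
                exact Real.rpow_le_rpow hS0 (by linarith) (by linarith)
        have e5 : R * (r⁻¹ + K ^ (q0 - 2) * R⁻¹) ≤ (1 + K ^ (q0 - 2)) * (R / r) := by
          have h3 : 1 ≤ R / r := (one_le_div hr).2 hrR
          have h4 : 0 ≤ K ^ (q0 - 2) := by positivity
          have h5 : R * (r⁻¹ + K ^ (q0 - 2) * R⁻¹) = R / r + K ^ (q0 - 2) := by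
            field_simp
          rw [h5]
          nlinarith
        rw [e1, Real.rpow_neg_one, e2]
        calc (M * S) ^ (q - q0) * (C * M ^ q0 * R * (r⁻¹ + K ^ (q0 - 2) * R⁻¹))
            = C * ((M * S) ^ (q - q0) * M ^ q0) * (R * (r⁻¹ + K ^ (q0 - 2) * R⁻¹)) := by ring
          _ ≤ C * ((S + 1) ^ (q - q0) * M ^ q) * ((1 + K ^ (q0 - 2)) * (R / r)) := by
              gcongr
          _ = _ := by ring

end Pool.Agent.Results.MP_6cbfb8_an.RandomPositions
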