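import Mathlib
import Pool.Agent.Q89.SP.A4
set_option autoImplicit false

/-!
# Stein's restriction conjecture: densities with sparse spectrum

Let `n ≥ 2` and let `η_0, η_1, ...` be points of `ℝ^n` such that every ball of radius `R ≥ 1`
contains at most `A R^β` of them, where `0 ≤ β < (n-1)/2`. For square summable coefficients `c_i`
the series `g(x) = ∑ c_i e^{i⟨η_i, x⟩}` converges in `L²(σ)`, and the Fourier transform of `g dσ` is
in `L^q(ℝ^n)` for every `q > 2(n-β)/(n-1-β)`, with norm at most `C (∑ |c_i|²)^{1/2}`.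

For `β → (n-1)/2` this is the range of the Stein-Tomas theorem, and for `β → 0` it is the full range
`q > 2n/(n-1)` of the conjecture: if the number of the `η_i` in a ball of radius `R ≥ 1` is
`O(R^β)` for every `β > 0`, then the Fourier transform of `g dσ` is in `L^q` for all
`q > 2n/(n-1)`. No boundedness or smoothness of `g` is assumed.
-/

namespace Pool.Agent.Results.MP_6cbfb8_an.SparseSpectrum

open MeasureTheory Set Metric Filter Topology
open scoped ENNReal RealInnerProductSpace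

/-- Euclidean space -/
abbrev E (n : ℕ) := EuclideanSpace ℝ (Fin n)

/-- surface measure on the unit sphere -/
noncomputable def sigma (n : ℕ) : Measure (sphere (0 : E n) 1) := (volume : Measure (E n)).toSphere

/-- the Fourier transform of the measure `g dσ` -/
noncomputable def ft {n : ℕ} (g : sphere (0 : E n) 1 → ℂ) (ξ : E n) : ℂ :=
  ∫ x, Complex.exp (-(2 * Real.pi * ⟪(x : E n), ξ⟫ : ℝ) * Complex.I) * g x ∂(sigma n)

/-- The points `η_i` are `β`-sparse with constant `A`: at most `A R^β` of them (counted with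
multiplicity) lie in any closed ball of radius `R ≥ 1`. -/
def Sparse {n : ℕ} (A β : ℝ) (η : ℕ → E n) : Prop :=
  ∀ (x : E n) (R : ℝ), 1 ≤ R → ∀ F : Finset ℕ, (∀ i ∈ F, ‖x - η i‖ ≤ R) → (F.card : ℝ) ≤ A * R ^ β

/-- `g` is the sum in `L²(σ)` of the series `∑ c_i e^{i⟨η_i, x⟩}`. -/
def IsSum {n : ℕ} (η : ℕ → E n) (c : ℕ → ℂ) (g : sphere (0 : E n) 1 → ℂ) : Prop :=
  MemLp g 2 (sigma n) ∧ Tendsto (fun N : ℕ => eLpNorm (fun x => g x -
    ∑ i ∈ Finset.range N, c i * Complex.exp ((⟪η i, (x : E n)⟫ : ℝ) * Complex.I)) 2 (sigma n))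
    atTop (𝓝 0)

/-! ### Proofs -/

open Q89.SP (K G G_cont G_le G_L2 fin_bound)
open Pool.Agent.H789R2.FR (sg T sg_finite)

variable {n : ℕ}

theorem sparse_iff (A β : ℝ) (η : ℕ → E n) : Sparse A β η ↔ Q89.SP.Sparse A β η := Iff.rfl

instance (n : ℕ) : IsFiniteMeasure (sigma n) := by unfold sigma; infer_instance

/-- the partial sums on the sphere -/
noncomputable def gs (η : ℕ → E n) (c : ℕ → ℂ) (F : Finset ℕ) (x : sphere (0 : E n) 1) : ℂ :=
  G η c F x

theorem gs_eq (η : ℕ → E n) (c : ℕ → ℂ) (F : Finset ℕ) (x : sphere (0 : E n) 1) :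
    gs η c F x = ∑ i ∈ F, c i * Complex.exp ((⟪η i, (x : E n)⟫ : ℝ) * Complex.I) := rfl

theorem gs_cont (η : ℕ → E n) (c : ℕ → ℂ) (F : Finset ℕ) : Continuous (gs η c F) :=
  (G_cont η c F).comp continuous_subtype_val

theorem gs_memLp (η : ℕ → E n) (c : ℕ → ℂ) (F : Finset ℕ) (p : ℝ≥0∞) :
    MemLp (gs η c F) p (sigma n) :=
  MemLp.of_bound (gs_cont η c F).aestronglyMeasurable (∑ i ∈ F, ‖c i‖)
    (Filter.Eventually.of_forall fun x => G_le η c F x)

theorem ft_gs (η : ℕ → E n) (c : ℕ → ℂ) (F : Finset ℕ) (ξ : E n) :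
    ft (gs η c F) ξ = T (G η c F) ((2 * Real.pi) • ξ) := by
  unfold T ft sigma
  have m1 : Measurable fun w : E n =>
      Complex.exp (-((⟪(2 * Real.pi) • ξ, w⟫ : ℝ) : ℂ) * Complex.I) * G η c F w := by
    have h2 : Measurable fun z : E n => (⟪(2 * Real.pi) • ξ, z⟫ : ℝ) :=
      (by fun_prop : Continuous _).measurable
    exact (Complex.measurable_exp.comp ((Complex.measurable_ofReal.comp h2).neg.mul_const _)).mul
      (G_cont η c F).measurable
  simp only [sg]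
  rw [integral_map measurable_subtype_coe.aemeasurable m1.aestronglyMeasurable]
  refine integral_congr_ae (Filter.Eventually.of_forall fun x => ?_)
  simp only
  rw [real_inner_smul_left, real_inner_comm]
  rfl

theorem gs_L2 (η : ℕ → E n) (c : ℕ → ℂ) (F : Finset ℕ) :
    eLpNorm (gs η c F) 2 (sigma n) =
      ENNReal.ofReal (Real.sqrt (∫ w, ‖G η c F w‖ ^ 2 ∂(sg n))) := by
  have h1 : ∫ w, ‖G η c F w‖ ^ 2 ∂(sg n) = ∫ x, ‖gs η c F x‖ ^ 2 ∂(sigma n) := by
    simp only [sg]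
    rw [integral_map measurable_subtype_coe.aemeasurable
      ((G_cont η c F).measurable.norm.pow_const 2).aestronglyMeasurable]
    rfl
  rw [h1, (gs_memLp η c F 2).eLpNorm_eq_integral_rpow_norm (by norm_num) (by norm_num)]
  congr 1
  rw [Real.sqrt_eq_rpow]
  simp

theorem scale (f : E n → ℝ≥0∞) (hf : Measurable f) :
    ∫⁻ ξ : E n, f ((2 * Real.pi) • ξ) ≤ ∫⁻ z, f z := by
  have h2pi : (2 * Real.pi) ≠ 0 := by positivity
  have h3 := Measure.map_addHaar_smul (volume : Measure (E n)) h2pi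
  have h4 : ∫⁻ x : E n, f x ∂(Measure.map ((2 * Real.pi) • · : E n → E n) volume) =
      ∫⁻ ξ : E n, f ((2 * Real.pi) • ξ) := lintegral_map hf (measurable_const_smul _)
  rw [← h4, h3, lintegral_smul_measure, smul_eq_mul]
  have h5 : ENNReal.ofReal |((2 * Real.pi) ^ Module.finrank ℝ (E n))⁻¹| ≤ 1 := by
    rw [ENNReal.ofReal_le_one, abs_of_nonneg (by positivity)]
    apply inv_le_one_of_one_le₀
    apply one_le_pow₀
    linarith [Real.pi_gt_three]
  calc _ ≤ 1 * ∫⁻ z, f z := mul_le_mul_left h5 _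
    _ = _ := one_mul _

theorem T_meas (η : ℕ → E n) (c : ℕ → ℂ) (F : Finset ℕ) : Measurable (T (G η c F)) := by
  have := sg_finite n
  exact (Pool.Agent.H789R2.FR.L2.measurable_T _ (G_cont η c F).measurable).measurable

theorem ft_gs_meas (η : ℕ → E n) (c : ℕ → ℂ) (F : Finset ℕ) : Measurable (ft (gs η c F)) := by
  have h1 : ft (gs η c F) = fun ξ => T (G η c F) ((2 * Real.pi) • ξ) := funext fun ξ => ft_gs _ _ _ _
  rw [h1]
  have h2 : Measurable fun x : E n => (2 * Real.pi) • x := measurable_const_smul _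
  have h3 : Measurable (T (G η c F)) := T_meas η c F
  exact h3.comp h2

theorem ft_gs_le (η : ℕ → E n) (c : ℕ → ℂ) (F : Finset ℕ) (q : ℝ) (hq : 0 < q) :
    eLpNorm (ft (gs η c F)) (ENNReal.ofReal q) ≤ eLpNorm (T (G η c F)) (ENNReal.ofReal q) := by
  rw [eLpNorm_eq_lintegral_rpow_enorm_toReal (by simpa using hq) ENNReal.ofReal_ne_top,
    eLpNorm_eq_lintegral_rpow_enorm_toReal (by simpa using hq) ENNReal.ofReal_ne_top,
    ENNReal.toReal_ofReal hq.le]
  apply ENNReal.rpow_le_rpow _ (by positivity)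
  have h1 := scale (n := n) (fun z => ‖T (G η c F) z‖ₑ ^ q) ((T_meas η c F).enorm.pow_const q)
  refine le_trans (le_of_eq ?_) h1
  exact lintegral_congr fun ξ => by rw [ft_gs]

/-- pointwise convergence of the Fourier transforms -/
theorem ft_lim {η : ℕ → E n} {c : ℕ → ℂ} {g : sphere (0 : E n) 1 → ℂ} (h : IsSum η c g) (ξ : E n) :
    Tendsto (fun N => ft (gs η c (Finset.range N)) ξ) atTop (𝓝 (ft g ξ)) := by
  obtain ⟨hg, hlim⟩ := h
  have hnorm : ∀ x : sphere (0 : E n) 1,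
      ‖Complex.exp (-(2 * Real.pi * ⟪(x : E n), ξ⟫ : ℝ) * Complex.I)‖ₑ = 1 := by
    intro x
    rw [← ofReal_norm, show (-(2 * Real.pi * ⟪(x : E n), ξ⟫ : ℝ) : ℂ) * Complex.I =
      ((-(2 * Real.pi * ⟪(x : E n), ξ⟫) : ℝ) : ℂ) * Complex.I by push_cast; ring,
      Complex.norm_exp_ofReal_mul_I, ENNReal.ofReal_one]
  have hcont : Continuous fun x : sphere (0 : E n) 1 =>
      Complex.exp (-(2 * Real.pi * ⟪(x : E n), ξ⟫ : ℝ) * Complex.I) := by fun_prop
  have hint : ∀ f : sphere (0 : E n) 1 → ℂ, MemLp f 2 (sigma n) →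
      Integrable (fun x : sphere (0 : E n) 1 =>
        Complex.exp (-(2 * Real.pi * ⟪(x : E n), ξ⟫ : ℝ) * Complex.I) * f x) (sigma n) := by
    intro f hf
    have h1 : Integrable f (sigma n) := hf.integrable (by norm_num)
    refine h1.bdd_mul (c := 1) hcont.aestronglyMeasurable (Filter.Eventually.of_forall fun x => ?_)
    have := hnorm x
    rw [← ofReal_norm, ENNReal.ofReal_eq_one] at this
    exact this.le
  refine tendsto_integral_of_L1 _ (hint g hg).1 (Filter.Eventually.of_forall fun N =>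
    hint _ (gs_memLp η c _ 2)) ?_
  have h3 : Tendsto (fun N : ℕ => eLpNorm (fun x => g x - gs η c (Finset.range N) x) 2 (sigma n) *
      (sigma n) univ ^ (1 / (1 : ℝ≥0∞).toReal - 1 / (2 : ℝ≥0∞).toReal)) atTop (𝓝 0) := by
    have h4 : (sigma n) univ ^ (1 / (1 : ℝ≥0∞).toReal - 1 / (2 : ℝ≥0∞).toReal) ≠ ⊤ := by
      apply ENNReal.rpow_ne_top_of_nonneg _ (measure_ne_top _ _)
      norm_num
    have := ENNReal.Tendsto.mul_const hlim (Or.inr h4)
    rwa [zero_mul] at this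
  refine tendsto_of_tendsto_of_tendsto_of_le_of_le tendsto_const_nhds h3 (fun _ => zero_le) ?_
  intro N
  have h5 := eLpNorm_le_eLpNorm_mul_rpow_measure_univ (μ := sigma n) (p := 1) (q := 2)
    (by norm_num) (f := fun x => g x - gs η c (Finset.range N) x)
    (hg.1.sub (gs_cont η c _).aestronglyMeasurable)
  refine le_trans (le_of_eq ?_) h5
  rw [eLpNorm_one_eq_lintegral_enorm]
  refine lintegral_congr fun x => ?_
  rw [← mul_sub, enorm_mul, hnorm, one_mul, enorm_sub_rev]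

/-- existence of the sum -/
theorem exists_sum (hn : 2 ≤ n) {A β : ℝ} (hβ : β < ((n : ℝ) - 1) / 2) {η : ℕ → E n}
    (hη : Sparse A β η) (hA : 0 ≤ A) {c : ℕ → ℂ} (hc : Summable fun i => ‖c i‖ ^ 2) :
    ∃ g, IsSum η c g := by
  obtain ⟨C, hC, h⟩ := G_L2 n hn β hβ
  set u : ℕ → Lp ℂ 2 (sigma n) := fun N => (gs_memLp η c (Finset.range N) 2).toLp _ with hu
  have hdist : ∀ M N, M ≤ N → dist (u N) (u M) ≤
      Real.sqrt (C * A * ∑ i ∈ Finset.Ico M N, ‖c i‖ ^ 2) := by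
    intro M N hMN
    rw [dist_eq_norm, hu]
    simp only
    rw [← MemLp.toLp_sub, Lp.norm_toLp]
    have e1 : gs η c (Finset.range N) - gs η c (Finset.range M) = gs η c (Finset.Ico M N) := by
      funext x
      rw [Pi.sub_apply, gs_eq, gs_eq, gs_eq, Finset.sum_Ico_eq_sub _ hMN]
    rw [e1, gs_L2, ENNReal.toReal_ofReal (Real.sqrt_nonneg _)]
    exact Real.sqrt_le_sqrt (h A hA ℕ η hη c _)
  have hcau : CauchySeq u := by
    rw [Metric.cauchySeq_iff']
    intro ε hε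
    have h1 := hc.hasSum.tendsto_sum_nat.cauchySeq
    rw [Metric.cauchySeq_iff'] at h1
    obtain ⟨N0, hN0⟩ := h1 (ε ^ 2 / (C * A + 1)) (by positivity)
    refine ⟨N0, fun N hN => ?_⟩
    refine (hdist N0 N hN).trans_lt ?_
    rw [Real.sqrt_lt' hε]
    have h2 := hN0 N hN
    rw [Real.dist_eq, ← Finset.sum_Ico_eq_sub _ hN, abs_of_nonneg (Finset.sum_nonneg fun _ _ => by positivity),
      lt_div_iff₀ (by positivity)] at h2
    have h3 : 0 ≤ ∑ i ∈ Finset.Ico N0 N, ‖c i‖ ^ 2 := Finset.sum_nonneg fun _ _ => by positivity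
    nlinarith
  obtain ⟨g, hg⟩ := cauchySeq_tendsto_of_complete hcau
  refine ⟨g, Lp.memLp g, ?_⟩
  have h1 : Tendsto (fun N => ENNReal.ofReal (dist (u N) g)) atTop (𝓝 0) := by
    rw [← ENNReal.ofReal_zero]
    exact ENNReal.tendsto_ofReal (tendsto_iff_dist_tendsto_zero.1 hg)
  refine h1.congr fun N => ?_
  rw [dist_comm, dist_eq_norm, Lp.norm_def, ENNReal.ofReal_toReal (Lp.eLpNorm_ne_top _)]
  apply eLpNorm_congr_ae
  have h2 := MemLp.coeFn_toLp (gs_memLp η c (Finset.range N) 2)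
  have h3 := Lp.coeFn_sub g (u N)
  filter_upwards [h2, h3] with x hx2 hx3
  rw [hx3, Pi.sub_apply]
  have : (u N : sphere (0 : E n) 1 → ℂ) x = gs η c (Finset.range N) x := hx2
  rw [this, gs_eq]

theorem bound (hn : 2 ≤ n) (A β q : ℝ) (hβ : β < ((n : ℝ) - 1) / 2)
    (hq : 2 * ((n : ℝ) - β) / ((n : ℝ) - 1 - β) < q) (hA : 0 ≤ A) : ∃ C : ℝ, 0 < C ∧
    ∀ (η : ℕ → E n), Sparse A β η → ∀ c : ℕ → ℂ, (Summable fun i => ‖c i‖ ^ 2) →
    ∀ g, IsSum η c g → MemLp (ft g) (ENNReal.ofReal q) ∧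
      eLpNorm (ft g) (ENNReal.ofReal q) ≤
        ENNReal.ofReal (C * Real.sqrt (∑' i, ‖c i‖ ^ 2)) := by
  have hn' : (2 : ℝ) ≤ n := by exact_mod_cast hn
  have h1 : 0 < (n : ℝ) - 1 - β := by linarith
  rw [div_lt_iff₀ h1] at hq
  have hq2 : 2 < q := by nlinarith
  obtain ⟨C, hC, h⟩ := fin_bound n hn β q A hβ hq2 (by nlinarith) hA
  refine ⟨C, hC, fun η hη c hc g hg => ?_⟩
  have hb : ∀ N, eLpNorm (ft (gs η c (Finset.range N))) (ENNReal.ofReal q) ≤
      ENNReal.ofReal (C * Real.sqrt (∑' i, ‖c i‖ ^ 2)) := by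
    intro N
    refine (ft_gs_le η c _ q (by linarith)).trans ((h ℕ η hη c _).trans ?_)
    apply ENNReal.ofReal_le_ofReal
    gcongr
    exact hc.sum_le_tsum _ fun _ _ => by positivity
  have hle : eLpNorm (ft g) (ENNReal.ofReal q) ≤
      ENNReal.ofReal (C * Real.sqrt (∑' i, ‖c i‖ ^ 2)) := by
    have hlim := Lp.eLpNorm_lim_le_liminf_eLpNorm (μ := (volume : Measure (E n)))
      (p := ENNReal.ofReal q) (f := fun N => ft (gs η c (Finset.range N)))
      (fun N => (ft_gs_meas η c _).aestronglyMeasurable) (ft g)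
      (Filter.Eventually.of_forall fun ξ => ft_lim hg ξ)
    refine hlim.trans ?_
    refine (Filter.liminf_le_liminf (Filter.Eventually.of_forall hb)).trans ?_
    rw [Filter.liminf_const]
  refine ⟨⟨?_, hle.trans_lt ENNReal.ofReal_lt_top⟩, hle⟩
  have : Measurable (ft g) := measurable_of_tendsto_metrizable
    (fun N => ft_gs_meas η c (Finset.range N)) (tendsto_pi_nhds.2 fun ξ => ft_lim hg ξ)
  exact this.aestronglyMeasurable

/-- **Theorem.** Densities with spectrum in a `β`-sparse sequence, `0 ≤ β < (n-1)/2`, and exponents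
`q > 2(n-β)/(n-1-β)`; in particular all exponents `q > 2n/(n-1)` of the conjecture if the sequence
is `β`-sparse for every `β > 0`. -/
theorem result (n : ℕ) (hn : 2 ≤ n) :
    (∀ A β q : ℝ, 0 ≤ β → β < ((n : ℝ) - 1) / 2 → 2 * ((n : ℝ) - β) / ((n : ℝ) - 1 - β) < q →
      ∃ C : ℝ, 0 < C ∧ ∀ (η : ℕ → E n), Sparse A β η → ∀ c : ℕ → ℂ,
        (Summable fun i => ‖c i‖ ^ 2) → (∃ g, IsSum η c g) ∧
        ∀ g, IsSum η c g → MemLp (ft g) (ENNReal.ofReal q) ∧
          eLpNorm (ft g) (ENNReal.ofReal q) ≤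
            ENNReal.ofReal (C * Real.sqrt (∑' i, ‖c i‖ ^ 2))) ∧
    ∀ η : ℕ → E n, (∀ β : ℝ, 0 < β → ∃ A : ℝ, Sparse A β η) → ∀ c : ℕ → ℂ,
      (Summable fun i => ‖c i‖ ^ 2) → (∃ g, IsSum η c g) ∧
      ∀ g, IsSum η c g → ∀ q : ℝ, 2 * (n : ℝ) / ((n : ℝ) - 1) < q →
        MemLp (ft g) (ENNReal.ofReal q) := by
  have hn' : (2 : ℝ) ≤ n := by exact_mod_cast hn
  have hApos : ∀ (A β : ℝ) (η : ℕ → E n), Sparse A β η → 0 ≤ A := by
    intro A β η h
    have := h 0 1 le_rfl ∅ (by simp)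
    simpa using this
  have main : ∀ A β q : ℝ, 0 ≤ β → β < ((n : ℝ) - 1) / 2 →
      2 * ((n : ℝ) - β) / ((n : ℝ) - 1 - β) < q →
      ∃ C : ℝ, 0 < C ∧ ∀ (η : ℕ → E n), Sparse A β η → ∀ c : ℕ → ℂ,
        (Summable fun i => ‖c i‖ ^ 2) → (∃ g, IsSum η c g) ∧
        ∀ g, IsSum η c g → MemLp (ft g) (ENNReal.ofReal q) ∧
          eLpNorm (ft g) (ENNReal.ofReal q) ≤
            ENNReal.ofReal (C * Real.sqrt (∑' i, ‖c i‖ ^ 2)) := by
    intro A β q _ hβ hq
    by_cases hA : 0 ≤ A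
    · obtain ⟨C, hC, h⟩ := bound hn A β q hβ hq hA
      exact ⟨C, hC, fun η hη c hc => ⟨exists_sum hn hβ hη hA hc, h η hη c hc⟩⟩
    · exact ⟨1, one_pos, fun η hη => (hA (hApos A β η hη)).elim⟩
  refine ⟨main, fun η hη c hc => ⟨?_, fun g hg q hq => ?_⟩⟩
  · have hβ : ((n : ℝ) - 1) / 4 < ((n : ℝ) - 1) / 2 := by linarith
    obtain ⟨A, hA⟩ := hη (((n : ℝ) - 1) / 4) (by linarith)
    exact exists_sum hn hβ hA (hApos _ _ _ hA) hc
  · -- choose a small exponent
    have h1 : 0 < (n : ℝ) - 1 := by linarith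
    rw [div_lt_iff₀ h1] at hq
    set β : ℝ := min ((q * (n - 1) - 2 * n) / (2 * q)) (((n : ℝ) - 1) / 4) with hβd
    have hq0 : 0 < q := by nlinarith
    have hβ0 : 0 < β := lt_min (div_pos (by linarith) (by linarith)) (by linarith)
    have hβ1 : β ≤ ((n : ℝ) - 1) / 4 := min_le_right _ _
    have hβ2 : β ≤ (q * (n - 1) - 2 * n) / (2 * q) := min_le_left _ _
    rw [le_div_iff₀ (by linarith)] at hβ2
    obtain ⟨A, hA⟩ := hη β hβ0
    obtain ⟨C, hC, h⟩ := main A β q hβ0.le (by linarith) (by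
      rw [div_lt_iff₀ (by linarith)]
      nlinarith)
    exact ((h η hA c hc).2 g hg).1

end Pool.Agent.Results.MP_6cbfb8_an.SparseSpectrum
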